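import Mathlib
import Pool.Agent.H773.IE.SM

/-!
# IE-HAAR: rotated Nielsen words preserve the product of Haar measures
-/

set_option autoImplicit false

open MeasureTheory Set Filter Topology

namespace Pool.Agent.H597.IE

open Pool.Agent.H773.IE

theorem wprod_append' {G : Type} [Group G] {n : ℕ} (g : Fin n → G) (a b : List (Fin n)) :
    wprod g (a ++ b) = wprod g b * wprod g a := by
  induction a with
  | nil => simp [wprod]
  | cons j a ih => rw [List.cons_append, wprod, ih, wprod, mul_assoc]

theorem wprod_conj {G : Type} [Group G] {n : ℕ} (g : Fin n → G) (c : G) (w : List (Fin n)) :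
    wprod (fun i => c * g i * c⁻¹) w = c * wprod g w * c⁻¹ := by
  induction w with
  | nil => simp [wprod]
  | cons j w ih => rw [wprod, ih, wprod]; group

/-- a change of one coordinate which preserves the measure of this coordinate preserves the product
measure -/
theorem law_update {G : Type} [MeasurableSpace G] (μ : Measure G) [SigmaFinite μ] {d : ℕ}
    (β : Fin d) (F : (Fin d → G) → G → G) (hF : Measurable fun h : Fin d → G => F h (h β))
    (hF1 : ∀ h x y, F (Function.update h β x) y = F h y)
    (hF2 : ∀ h, ∀ f : G → ENNReal, Measurable f → ∫⁻ y, f (F h y) ∂μ = ∫⁻ y, f y ∂μ) :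
    MeasurePreserving (fun h : Fin d → G => Function.update h β (F h (h β))) (Measure.pi fun _ => μ)
      (Measure.pi fun _ => μ) := by
  have hm : Measurable fun h : Fin d → G => Function.update h β (F h (h β)) := by
    rw [measurable_pi_iff]
    intro i
    by_cases hi : i = β
    · subst hi
      simpa using hF
    · have : (fun h : Fin d → G => Function.update h β (F h (h β)) i) = fun h => h i := by
        funext h
        rw [Function.update_of_ne hi]
      rw [this]
      exact measurable_pi_apply i
  refine ⟨hm, ?_⟩
  refine Measure.ext_of_lintegral _ fun f hf => ?_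
  rw [lintegral_map hf hm]
  refine lintegral_eq_of_lmarginal_eq (μ := fun _ : Fin d => μ) {β} (hf.comp hm) hf ?_
  rw [lmarginal_singleton, lmarginal_singleton]
  funext x
  have h1 : ∀ y, Function.update (Function.update x β y) β
      (F (Function.update x β y) (Function.update x β y β)) = Function.update x β (F x y) := by
    intro y
    rw [hF1, Function.update_self, Function.update_idem]
  simp only [h1]
  exact hF2 x (fun y => f (Function.update x β y)) (hf.comp (measurable_update x))

section
variable {G : Type} [Group G] [MeasurableSpace G] [MeasurableMul₂ G]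
  [MeasurableInv G] (μ : Measure G) [SigmaFinite μ] [μ.IsMulLeftInvariant]
  [μ.IsMulRightInvariant] {n : ℕ}

include μ in
theorem nielsen_mp (w : Fin n → List (Fin n)) (hw : Nielsen w) :
    MeasurePreserving (fun (g : Fin n → G) i => wprod g (w i)) (Measure.pi fun _ => μ)
      (Measure.pi fun _ => μ) := by
  induction hw with
  | base =>
    have : (fun (g : Fin n → G) (i : Fin n) => wprod g [i]) = id := by
      funext g i
      simp [wprod]
    rw [this]
    exact MeasurePreserving.id _
  | right w α β h hw ih =>
    have h1 : MeasurePreserving (fun h : Fin n → G => Function.update h β (h α * h β))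
        (Measure.pi fun _ => μ) (Measure.pi fun _ => μ) := by
      refine law_update μ β (fun h y => h α * y) ?_ ?_ ?_
      · exact (measurable_pi_apply α).mul (measurable_pi_apply β)
      · intro g x y
        show Function.update g β x α * y = g α * y
        rw [Function.update_of_ne h]
      · intro g f _
        exact lintegral_mul_left_eq_self f (g α)
    have h2 : (fun (g : Fin n → G) (i : Fin n) => wprod g (Function.update w β (w β ++ w α) i)) =
        (fun h : Fin n → G => Function.update h β (h α * h β)) ∘
          fun (g : Fin n → G) (i : Fin n) => wprod g (w i) := by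
      funext g i
      simp only [Function.comp_apply]
      by_cases hi : i = β
      · subst hi
        rw [Function.update_self, Function.update_self, wprod_append']
      · rw [Function.update_of_ne hi, Function.update_of_ne hi]
    rw [h2]
    exact h1.comp ih
  | left w α β h hw ih =>
    have h1 : MeasurePreserving (fun h : Fin n → G => Function.update h α (h α * h β))
        (Measure.pi fun _ => μ) (Measure.pi fun _ => μ) := by
      refine law_update μ α (fun h y => y * h β) ?_ ?_ ?_
      · exact (measurable_pi_apply α).mul (measurable_pi_apply β)
      · intro g x y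
        show y * Function.update g α x β = y * g β
        rw [Function.update_of_ne h.symm]
      · intro g f _
        exact lintegral_mul_right_eq_self f (g β)
    have h2 : (fun (g : Fin n → G) (i : Fin n) => wprod g (Function.update w α (w β ++ w α) i)) =
        (fun h : Fin n → G => Function.update h α (h α * h β)) ∘
          fun (g : Fin n → G) (i : Fin n) => wprod g (w i) := by
      funext g i
      simp only [Function.comp_apply]
      by_cases hi : i = α
      · subst hi
        rw [Function.update_self, Function.update_self, wprod_append']
      · rw [Function.update_of_ne hi, Function.update_of_ne hi]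
    rw [h2]
    exact h1.comp ih

include μ in
theorem conjS_mp (j : Fin n) (S : Finset (Fin n)) (hj : j ∉ S) :
    MeasurePreserving (fun (g : Fin n → G) i => if i ∈ S then g j * g i * (g j)⁻¹ else g i)
      (Measure.pi fun _ => μ) (Measure.pi fun _ => μ) := by
  induction S using Finset.induction_on with
  | empty =>
    have : (fun (g : Fin n → G) (i : Fin n) =>
        if i ∈ (∅ : Finset (Fin n)) then g j * g i * (g j)⁻¹ else g i) = id := by
      funext g i
      simp
    rw [this]
    exact MeasurePreserving.id _
  | insert a S ha ih =>
    have hja : j ≠ a := fun h => hj (by rw [h]; exact Finset.mem_insert_self _ _)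
    have hjS : j ∉ S := fun h => hj (Finset.mem_insert_of_mem h)
    have ih := ih hjS
    have h1 : MeasurePreserving
        (fun h : Fin n → G => Function.update h a (h j * h a * (h j)⁻¹))
        (Measure.pi fun _ => μ) (Measure.pi fun _ => μ) := by
      refine law_update μ a (fun h y => h j * y * (h j)⁻¹) ?_ ?_ ?_
      · exact ((measurable_pi_apply j).mul (measurable_pi_apply a)).mul
          (measurable_pi_apply j).inv
      · intro g x y
        show Function.update g a x j * y * (Function.update g a x j)⁻¹ = g j * y * (g j)⁻¹
        rw [Function.update_of_ne hja]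
      · intro g f _
        have e1 : ∫⁻ y, f (g j * y * (g j)⁻¹) ∂μ = ∫⁻ y, f (y * (g j)⁻¹) ∂μ :=
          lintegral_mul_left_eq_self (fun y => f (y * (g j)⁻¹)) (g j)
        rw [e1]
        exact lintegral_mul_right_eq_self f (g j)⁻¹
    have h2 : (fun (g : Fin n → G) (i : Fin n) =>
        if i ∈ insert a S then g j * g i * (g j)⁻¹ else g i) =
        (fun h : Fin n → G => Function.update h a (h j * h a * (h j)⁻¹)) ∘
          fun (g : Fin n → G) (i : Fin n) => if i ∈ S then g j * g i * (g j)⁻¹ else g i := by
      funext g i
      simp only [Function.comp_apply]
      by_cases hi : i = a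
      · subst hi
        rw [Function.update_self, if_pos (Finset.mem_insert_self _ _), if_neg hjS, if_neg ha]
      · rw [Function.update_of_ne hi]
        by_cases hiS : i ∈ S
        · rw [if_pos (Finset.mem_insert_of_mem hiS), if_pos hiS]
        · rw [if_neg, if_neg hiS]
          intro h
          rcases Finset.mem_insert.1 h with h | h
          · exact hi h
          · exact hiS h
    rw [h2]
    exact h1.comp ih

include μ in
theorem conj_mp (j : Fin n) :
    MeasurePreserving (fun (g : Fin n → G) i => g j * g i * (g j)⁻¹)
      (Measure.pi fun _ => μ) (Measure.pi fun _ => μ) := by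
  have h1 := conjS_mp μ j (Finset.univ.erase j) (Finset.notMem_erase _ _)
  have h2 : (fun (g : Fin n → G) (i : Fin n) => g j * g i * (g j)⁻¹) =
      fun (g : Fin n → G) (i : Fin n) =>
        if i ∈ Finset.univ.erase j then g j * g i * (g j)⁻¹ else g i := by
    funext g i
    by_cases hi : i = j
    · subst hi
      rw [if_neg (Finset.notMem_erase _ _), mul_inv_cancel_right]
    · rw [if_pos (Finset.mem_erase.2 ⟨hi, Finset.mem_univ _⟩)]
  rw [h2]
  exact h1

include μ in
theorem conjW_mp (p : List (Fin n)) :
    MeasurePreserving (fun (g : Fin n → G) i => wprod g p * g i * (wprod g p)⁻¹)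
      (Measure.pi fun _ => μ) (Measure.pi fun _ => μ) := by
  induction p with
  | nil =>
    have : (fun (g : Fin n → G) (i : Fin n) => wprod g [] * g i * (wprod g [])⁻¹) = id := by
      funext g i
      simp [wprod]
    rw [this]
    exact MeasurePreserving.id _
  | cons j p ih =>
    have h2 : (fun (g : Fin n → G) (i : Fin n) => wprod g (j :: p) * g i * (wprod g (j :: p))⁻¹) =
        (fun (h : Fin n → G) i => h j * h i * (h j)⁻¹) ∘
          fun (g : Fin n → G) (i : Fin n) => wprod g p * g i * (wprod g p)⁻¹ := by
      funext g i
      simp only [Function.comp_apply, wprod]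
      group
    rw [h2]
    exact (conj_mp μ j).comp ih

end

theorem t_haar : S_haar := by
  intro G _ _ _ _ μ _ _ _ n w hw
  obtain ⟨p, r, hN, rfl⟩ := hw
  have h1 := nielsen_mp μ (fun i => p ++ r i) hN
  have h2 := conjW_mp μ p
  have h3 : (fun (g : Fin n → G) (i : Fin n) => wprod g (r i ++ p)) =
      (fun (g : Fin n → G) i => wprod g (p ++ r i)) ∘
        fun (g : Fin n → G) (i : Fin n) => wprod g p * g i * (wprod g p)⁻¹ := by
    funext g i
    simp only [Function.comp_apply]
    rw [wprod_conj, wprod_append', wprod_append']
    group
  rw [h3]
  exact h1.comp h2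

end Pool.Agent.H597.IE
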