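import Pool.Agent.H773.IE.SR

/-!
# Project IE: hitting probabilities are the probabilities of the hitting events
-/

set_option autoImplicit false

open MeasureTheory Set Filter Topology
open scoped ENNReal

namespace Pool.Agent.H597.IE

open Pool.Agent.H773.IE

theorem ex_prob {r : ℝ} (hr : 0 < r) : IsProbabilityMeasure (ex r) := by
  constructor
  rw [ex, withDensity_apply _ MeasurableSet.univ, Measure.restrict_univ,
    ← ProbabilityTheory.lintegral_exponentialPDF_eq_one hr]
  apply lintegral_congr_ae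
  have h0 : ∀ᵐ x : ℝ ∂volume, x ≠ 0 := by
    have : (volume : Measure ℝ) {x | ¬ x ≠ 0} = 0 := by
      have e : {x : ℝ | ¬ x ≠ 0} = {0} := by
        ext x
        simp
      rw [e]
      exact Real.volume_singleton
    exact this
  filter_upwards [h0] with x hx
  rw [ProbabilityTheory.exponentialPDF_eq]
  rcases lt_or_gt_of_ne hx with h | h
  · rw [if_neg (not_lt.2 h.le), if_neg (not_le.2 h)]
  · rw [if_pos h, if_pos h.le]

theorem EE_prob {n : ℕ} {q : Fin n → ℝ} (hq : ∀ i, 0 < q i) : IsProbabilityMeasure (EE q) := by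
  have h : ∀ i, IsProbabilityMeasure (ex (q i)) := fun i => ex_prob (hq i)
  rw [EE]
  infer_instance

section

variable {m : ℕ}

/-- The target is hit in at most `k` steps. -/
def Hit (T : Sta m → (Fin (m + 1) → ℝ) → Prop) (k : ℕ) (s : Sta m) (q : Fin (m + 1) → ℝ) :
    Set (Fin (m + 1) → ℝ) :=
  {lam | ∃ p : List Bool, p.length ≤ k ∧ Cyl p s lam ∧ T (run p s) (runQ p s q)}

theorem hit_meas (hlawp : S_lawp) (hm : 1 ≤ m) (T : Sta m → (Fin (m + 1) → ℝ) → Prop) (k : ℕ)
    {s : Sta m} (hs : IrrS s) {q : Fin (m + 1) → ℝ} (hq : ∀ i, 0 < q i) :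
    MeasurableSet (Hit T k s q) := by
  have e : Hit T k s q = ⋃ p : List Bool,
      ({lam | Cyl p s lam} ∩ {_lam | p.length ≤ k ∧ T (run p s) (runQ p s q)}) := by
    ext lam
    simp only [Hit, Set.mem_ofPred_eq, Set.mem_iUnion, Set.mem_inter_iff]
    constructor
    · rintro ⟨p, h1, h2, h3⟩
      exact ⟨p, h2, h1, h3⟩
    · rintro ⟨p, h2, h1, h3⟩
      exact ⟨p, h1, h2, h3⟩
  rw [e]
  refine MeasurableSet.iUnion fun p => ?_
  exact (hlawp m hm s hs q hq p univ MeasurableSet.univ).1.inter (MeasurableSet.const _)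

theorem hit_zero (T : Sta m → (Fin (m + 1) → ℝ) → Prop) (k : ℕ) {s : Sta m}
    {q : Fin (m + 1) → ℝ} (h : T s q) : Hit T k s q = univ := by
  ext lam
  simp only [Hit, Set.mem_ofPred_eq, Set.mem_univ, iff_true]
  exact ⟨[], Nat.zero_le _, trivial, h⟩

theorem hit_succ (T : Sta m → (Fin (m + 1) → ℝ) → Prop) (k : ℕ) {s : Sta m}
    {q : Fin (m + 1) → ℝ} (h : ¬ T s q) : Hit T (k + 1) s q =
      {lam | Cyl [true] s lam ∧ runL [true] s lam ∈ Hit T k (nxt s true) (nxtQ s true q)} ∪
      {lam | Cyl [false] s lam ∧ runL [false] s lam ∈ Hit T k (nxt s false) (nxtQ s false q)} := by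
  ext lam
  simp only [Hit, Set.mem_ofPred_eq, Set.mem_union]
  constructor
  · rintro ⟨p, h1, h2, h3⟩
    match p with
    | [] => exact absurd h3 h
    | true :: p =>
      left
      exact ⟨⟨h2.1, trivial⟩, p, Nat.le_of_succ_le_succ h1, h2.2, h3⟩
    | false :: p =>
      right
      exact ⟨⟨h2.1, trivial⟩, p, Nat.le_of_succ_le_succ h1, h2.2, h3⟩
  · rintro (⟨h1, p, h2, h3, h4⟩ | ⟨h1, p, h2, h3, h4⟩)
    · exact ⟨true :: p, Nat.succ_le_succ h2, ⟨h1.1, h3⟩, h4⟩
    · exact ⟨false :: p, Nat.succ_le_succ h2, ⟨h1.1, h3⟩, h4⟩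

theorem hk_eq (hirr : S_irr) (hlawp : S_lawp) (hm : 1 ≤ m)
    (T : Sta m → (Fin (m + 1) → ℝ) → Prop) (k : ℕ) : ∀ (s : Sta m), IrrS s →
    ∀ q : Fin (m + 1) → ℝ, (∀ i, 0 < q i) → hk T k s q = EE q (Hit T k s q) := by
  induction k with
  | zero =>
    intro s hs q hq
    have hprob := EE_prob hq
    by_cases h : T s q
    · rw [hit_zero T 0 h, measure_univ, hk, if_pos h]
    · have e : Hit T 0 s q = ∅ := by
        ext lam
        simp only [Hit, Set.mem_ofPred_eq, Set.mem_empty_iff_false, iff_false]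
        rintro ⟨p, h1, -, h3⟩
        rw [Nat.le_zero, List.length_eq_zero_iff] at h1
        subst h1
        exact h h3
      rw [e, measure_empty, hk, if_neg h]
  | succ k ih =>
    intro s hs q hq
    have hprob := EE_prob hq
    by_cases h : T s q
    · rw [hit_zero T (k + 1) h, measure_univ, hk, if_pos h]
    · have hb : ∀ b, EE q {lam | Cyl [b] s lam ∧
          runL [b] s lam ∈ Hit T k (nxt s b) (nxtQ s b q)} =
          ENNReal.ofReal (pr s b q) * hk T k (nxt s b) (nxtQ s b q) := by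
        intro b
        have hmeas := hit_meas hlawp hm T k (hirr m hm s hs b) (nxtQ_pos hq (s := s) b)
        rw [(hlawp m hm s hs q hq [b] _ hmeas).2.2, ih _ (hirr m hm s hs b) _ (nxtQ_pos hq b)]
        simp only [prP, runQ, mul_one]
      have hmeas : MeasurableSet {lam | Cyl [false] s lam ∧
          runL [false] s lam ∈ Hit T k (nxt s false) (nxtQ s false q)} := by
        have h1 := hit_meas hlawp hm T k (hirr m hm s hs false) (nxtQ_pos hq (s := s) false)
        obtain ⟨h2, h3, -⟩ := hlawp m hm s hs q hq [false] _ h1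
        exact h2.inter (h3 h1)
      have hdisj : Disjoint {lam | Cyl [true] s lam ∧
          runL [true] s lam ∈ Hit T k (nxt s true) (nxtQ s true q)}
          {lam | Cyl [false] s lam ∧
          runL [false] s lam ∈ Hit T k (nxt s false) (nxtQ s false q)} := by
        rw [Set.disjoint_left]
        rintro lam ⟨h1, -⟩ ⟨h2, -⟩
        have h1' : lam (eb s) < lam (et s) := h1.1
        have h2' : lam (et s) < lam (eb s) := h2.1
        exact lt_asymm h1' h2'
      rw [hit_succ T k h, measure_union hdisj hmeas, hb true, hb false, hk, if_neg h]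

end

theorem t_link (hirr : S_irr) (hlawp : S_lawp) (_htie : S_tie) : S_link := by
  intro m hm T s hs q hq
  have e : {lam | ∃ p, Cyl p s lam ∧ T (run p s) (runQ p s q)} = ⋃ k : ℕ, Hit T k s q := by
    ext lam
    simp only [Hit, Set.mem_ofPred_eq, Set.mem_iUnion]
    constructor
    · rintro ⟨p, h1, h2⟩
      exact ⟨p.length, p, le_rfl, h1, h2⟩
    · rintro ⟨k, p, -, h1, h2⟩
      exact ⟨p, h1, h2⟩
  have hmono : Monotone fun k : ℕ => Hit T k s q := by
    intro k l hkl lam
    rintro ⟨p, h1, h2⟩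
    exact ⟨p, h1.trans hkl, h2⟩
  rw [e, hmono.measure_iUnion, hP]
  exact iSup_congr fun k => hk_eq hirr hlawp hm T k s hs q hq

end Pool.Agent.H597.IE
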